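import Pool.Agent.X120.Orb.Main
import Pool.Agent.X120.Fac.Rec

/-!
# Orbits of polynomials: the exceptional indices have density zero
-/

set_option autoImplicit false

open Polynomial Module Filter

namespace Pool.Agent.X120.Orb

open Pool.Agent.Y916.Om Pool.Agent.Y916.Ari Pool.Agent.Y916.Al Pool.Agent.X120.Rec Pool.Agent.X120.Soft
open Pool.Agent.X120.Fac

/-- the multiplicities -/
theorem count_sum (m : Multiset ℂ) (c z : ℂ) :
    ((m.map fun x => c - x).map fun β => Finsupp.single β (1 : ℚ)).sum (c - z) = m.count z := by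
  classical
  induction m using Multiset.induction_on with
  | empty => simp
  | cons x m ih =>
    rw [Multiset.map_cons, Multiset.map_cons, Multiset.sum_cons, Finsupp.add_apply, ih, Multiset.count_cons]
    by_cases h : z = x
    · subst h
      rw [if_pos rfl, Finsupp.single_eq_same]
      push_cast
      ring
    · rw [if_neg h, Finsupp.single_apply, if_neg]
      · push_cast
        ring
      · intro h1
        exact h (by linear_combination h1)

theorem rareO (f P : ℂ[X]) (hf : ∀ i, IsAlgebraic ℚ (f.coeff i)) (hP : ∀ i, IsAlgebraic ℚ (P.coeff i))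
    (hf1 : 1 ≤ f.natDegree) (hP2 : 2 ≤ P.natDegree) (hexc : ¬ ∃ z, (∀ x, f.eval x = 0 ↔ x = z) ∧ ∀ x, P.eval x = z ↔ x = z)
    (a : ℕ → ℂ) (ha0 : IsAlgebraic ℚ (a 0)) (ha : ∀ n, a (n + 1) = P.eval (a n)) (hub : ∀ R : ℝ, ∃ n, R < ‖a n‖) :
    Rare fun n (_ : Unit) => Complex.log (f.eval (a n)) := by
  classical
  have hf0 : f ≠ 0 := by
    rintro rfl
    simp at hf1
  set q := P.natDegree with hq
  obtain ⟨c, hc⟩ := exists_c f P hf0 hP2
  obtain ⟨n₁, hn₁⟩ := lower P hP2 a ha hub
  -- the field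
  set K₁ : IntermediateField ℚ ℂ := IntermediateField.adjoin ℚ (insert (a 0)
    ((Finset.range (q + 1)).image P.coeff : Set ℂ)) with hK₁
  have hfd : FiniteDimensional ℚ K₁ := IntermediateField.finiteDimensional_adjoin (by
    intro x hx
    rcases hx with rfl | hx
    · exact ha0.isIntegral
    · rw [Finset.mem_coe, Finset.mem_image] at hx
      obtain ⟨i, -, rfl⟩ := hx
      exact (hP i).isIntegral)
  have hPK : ∀ i ∈ Finset.range (q + 1), P.coeff i ∈ K₁ := fun i hi =>
    IntermediateField.subset_adjoin ℚ _ (Set.mem_insert_of_mem _ (Finset.mem_coe.2 (Finset.mem_image_of_mem _ hi)))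
  have haK : ∀ n, a n ∈ K₁ := by
    intro n
    induction n with
    | zero => exact IntermediateField.subset_adjoin ℚ _ (Set.mem_insert _ _)
    | succ n ih =>
      rw [ha, eval_eq_sum_range]
      exact sum_mem fun i hi => mul_mem (hPK i hi) (pow_mem ih i)
  set pK : ℕ → K₁ := fun i => if h : i ∈ Finset.range (q + 1) then ⟨P.coeff i, hPK i h⟩ else 0 with hpK
  set aK : ℕ → K₁ := fun n => ⟨a n, haK n⟩ with haKd
  have haK' : ∀ n, aK (n + 1) = ∑ i ∈ Finset.range (q + 1), pK i * aK n ^ i := by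
    intro n
    apply Subtype.ext
    rw [haKd]
    simp only
    push_cast
    rw [ha, eval_eq_sum_range]
    refine Finset.sum_congr rfl fun i hi => ?_
    rw [hpK]
    simp only [dif_pos hi]
  obtain ⟨Y, hY1, hPt⟩ := upper K₁ q hP2 pK aK haK' c
  set ξ : ℕ → K₁ := fun n => aK n - c with hξ
  have hξC : ∀ n, ((ξ n : K₁) : ℂ) = a n - c := fun n => by
    rw [hξ]
    push_cast
    rfl
  -- sizes
  obtain ⟨s, hs⟩ := pow_unbounded_of_one_lt (Y ^ q ^ n₁) (by norm_num : (1 : ℝ) < 2)
  have hqj : ∀ j : ℕ, j ≤ q ^ j := fun j => (Nat.lt_pow_self (by omega)).le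
  have hbig : ∀ j ≥ c, (2 : ℝ) ^ q ^ j ≤ ‖(ξ (n₁ + j) : ℂ)‖ := by
    intro j hj
    rw [hξC]
    have h1 := hn₁ j
    have h2 : ‖a (n₁ + j)‖ - c ≤ ‖a (n₁ + j) - c‖ := by
      have h3 := norm_sub_norm_le (a (n₁ + j)) (c : ℂ)
      rwa [Complex.norm_natCast] at h3
    have h3 : (c : ℝ) + 1 ≤ 2 ^ q ^ j := by
      have h4 : c + 1 ≤ 2 ^ q ^ j := by
        have h5 : q ^ j < 2 ^ q ^ j := Nat.lt_two_pow_self
        have h6 := hqj j
        omega
      exact_mod_cast h4
    have h4 : (4 : ℝ) ^ q ^ j = 2 ^ q ^ j * 2 ^ q ^ j := by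
      rw [← mul_pow]
      norm_num
    have h5 : (1 : ℝ) ≤ 2 ^ q ^ j := one_le_pow₀ (by norm_num)
    rw [h4] at h1
    nlinarith
  set n₂ := n₁ + c with hn₂
  have hsplit : ∀ n ≥ n₂, ∃ j ≥ c, n = n₁ + j := fun n hn => ⟨n - n₁, by omega, by omega⟩
  have hξ0 : ∀ n ≥ n₂, ((ξ n : K₁) : ℂ) ≠ 0 := by
    intro n hn
    obtain ⟨j, hj, rfl⟩ := hsplit n hn
    have h1 := hbig j hj
    have h2 : (0 : ℝ) < 2 ^ q ^ j := by positivity
    exact norm_pos_iff.1 (lt_of_lt_of_le h2 h1)
  have hanorm : ∀ n ≥ n₂, (c : ℝ) ≤ ‖a n‖ := by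
    intro n hn
    obtain ⟨j, hj, rfl⟩ := hsplit n hn
    refine le_trans ?_ (hn₁ j)
    have h5 : j < 4 ^ q ^ j := lt_of_le_of_lt (hqj j) (Nat.lt_pow_self (by norm_num))
    exact_mod_cast (by omega : c ≤ 4 ^ q ^ j)
  have hGne := fun g => G_ne f P hf0 (by omega) g
  -- the coefficient vectors
  set D : ℕ → (ℂ →₀ ℚ) := fun g =>
    (((G f P g).roots.map fun x => (c : ℂ) - x).map fun β => Finsupp.single β (1 : ℚ)).sum with hD
  have hDz : ∀ g z, D g ((c : ℂ) - z) = (G f P g).roots.count z := fun g z => count_sum _ _ _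
  set B : ℕ → Finset ℂ := fun L => (Finset.range (L + 1)).biUnion fun g =>
    (G f P g).roots.toFinset.image fun x => (c : ℂ) - x with hB
  set w : ℕ → Fin 4 → ℂ := fun n => ![Complex.log (ξ n), 2 * Real.pi * Complex.I, Complex.log f.leadingCoeff,
    Complex.log P.leadingCoeff] with hw
  refine rare_main (fun n (_ : Unit) => Complex.log (f.eval (a n))) K₁ ξ ?_ s (fun n => Y ^ q ^ n) n₂
    (fun n hn => ⟨hPt n, ?_⟩) 4 (fun n g _ => D g) B ?_ (fun L n hn g _ hg hgL => ?_) (fun n hn L => ?_) (fun n hn => ?_)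
  · refine tendsto_atTop.2 fun R => ?_
    obtain ⟨N, hN⟩ := exists_nat_ge R
    filter_upwards [eventually_ge_atTop (n₂ + N)] with n hn
    obtain ⟨j, hj, rfl⟩ := hsplit n (by omega)
    refine le_trans ?_ (hbig j hj)
    have h5 : N ≤ 2 ^ q ^ j := by
      have h6 : q ^ j < 2 ^ q ^ j := Nat.lt_two_pow_self
      have h7 := hqj j
      omega
    exact hN.trans (by exact_mod_cast h5)
  · obtain ⟨j, hj, rfl⟩ := hsplit n hn
    calc Y ^ q ^ (n₁ + j) = (Y ^ q ^ n₁) ^ q ^ j := by rw [← pow_mul, ← pow_add]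
      _ ≤ (2 ^ s) ^ q ^ j := by gcongr
      _ = (2 ^ q ^ j) ^ s := by rw [← pow_mul, ← pow_mul, mul_comm]
      _ ≤ ‖(ξ (n₁ + j) : ℂ)‖ ^ s := by
          gcongr
          exact hbig j hj
  · intro L β hβ
    obtain ⟨g, -, hg⟩ := Finset.mem_biUnion.1 hβ
    obtain ⟨x, hx, rfl⟩ := Finset.mem_image.1 hg
    have hroot : (G f P g).IsRoot x := isRoot_of_mem_roots (Multiset.mem_toFinset.1 hx)
    refine ⟨fun h0 => ?_, ?_⟩
    · have h1 : x = c := by linear_combination -h0
      refine hc g x ?_ hroot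
      rw [h1, Complex.norm_natCast]
    · refine IsAlgebraic.sub ?_ (root_alg (hGne g) (G_coeff f P hf hP g) hroot)
      have h1 : ((c : ℕ) : ℂ) = algebraMap ℚ ℂ (c : ℚ) := by simp
      rw [h1]
      exact isAlgebraic_algebraMap _
  · intro β hβ
    by_contra hcon
    refine (Finsupp.mem_support_iff.1 hβ) ?_
    obtain ⟨z, rfl⟩ : ∃ z, β = (c : ℂ) - z := ⟨c - β, by ring⟩
    have h1 : D g ((c : ℂ) - z) = 0 := by
      rw [hDz, Multiset.count_eq_zero_of_notMem, Nat.cast_zero]
      intro hz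
      exact hcon (Finset.mem_biUnion.2 ⟨g, Finset.mem_range.2 (by omega),
        Finset.mem_image_of_mem _ (Multiset.mem_toFinset.2 hz)⟩)
    exact h1
  · choose z hz1 hz2 using fun i : Fin L => new_root hf1 hP2 hexc (i + 1) (by omega)
    have h1 : LinearIndependent ℚ (fun i : Fin L => D (i + 1)) := by
      refine indep_tri _ (fun i => (c : ℂ) - z i) (fun i => ?_) fun i j hij => ?_
      · rw [hDz]
        have h2 : 0 < (G f P (i + 1)).roots.count (z i) :=
          Multiset.count_pos.2 ((mem_roots (hGne _)).2 (hz1 i))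
        exact_mod_cast h2.ne'
      · rw [hDz, Multiset.count_eq_zero_of_notMem, Nat.cast_zero]
        intro h2
        have hij' : (i : ℕ) < j := hij
        exact hz2 j (i + 1) (by omega) (isRoot_of_mem_roots h2)
    exact h1.comp (fun p : Fin L × Unit => p.1) fun a b h => Prod.ext h rfl
  · refine ⟨w n, fun g hg _ => ?_⟩
    rw [← lc_sum]
    set W : Submodule ℚ ℂ := Submodule.span ℚ (insert 1 (Set.range (w n))) with hW
    have hmem : ∀ i, w n i ∈ W := fun i => Submodule.subset_span (Set.mem_insert_of_mem _ ⟨i, rfl⟩)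
    have hlξ : Complex.log (ξ n) ∈ W := hmem 0
    have hpi : (2 * Real.pi * Complex.I : ℂ) ∈ W := hmem 1
    have hlf : Complex.log f.leadingCoeff ∈ W := hmem 2
    have hlP : Complex.log P.leadingCoeff ∈ W := hmem 3
    have hG0 : (G f P g).eval (a n) ≠ 0 := hc g _ (hanorm n hn)
    have hfac := (IsAlgClosed.splits (G f P g)).eval_eq_prod_roots (a n)
    set R : ℂ := ((((G f P g).roots.map fun x => (c : ℂ) - x)).map fun β => (ξ n : ℂ) + β).prod with hR
    have hR' : (G f P g).eval (a n) = (G f P g).leadingCoeff * R := by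
      rw [hfac, hR, Multiset.map_map]
      congr 2
      refine Multiset.map_congr rfl fun x _ => ?_
      rw [Function.comp_apply, hξC]
      ring
    have hR0 : R ≠ 0 := fun h => hG0 (by rw [hR', h, mul_zero])
    have hlc0 : (G f P g).leadingCoeff ≠ 0 := leadingCoeff_ne_zero.2 (hGne g)
    have h1 := log_prod W hpi (ξ n) (hξ0 n hn) hlξ ((G f P g).roots.map fun x => (c : ℂ) - x) (by
      intro β hβ
      obtain ⟨x, hx, rfl⟩ := Multiset.mem_map.1 hβ
      rw [hξC]
      intro h0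
      have h2 : a n = x := by linear_combination h0
      exact hG0 (by rw [h2]; exact isRoot_of_mem_roots hx)) R hR0 hR
    have h2 := log_lead f P hf0 (by omega) W hpi hlf hlP g
    rw [← G_eval f P a ha g n, hR']
    obtain ⟨k, hk⟩ : ∃ k : ℤ, Complex.log ((G f P g).leadingCoeff * R) =
        Complex.log (G f P g).leadingCoeff + Complex.log R + k * (2 * Real.pi * Complex.I) := by
      refine Complex.exp_eq_exp_iff_exists_int.1 ?_
      rw [Complex.exp_add, Complex.exp_log hlc0, Complex.exp_log hR0, Complex.exp_log (mul_ne_zero hlc0 hR0)]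
    have h3 : (k : ℂ) * (2 * Real.pi * Complex.I) ∈ W := by
      have h1 : (k : ℂ) * (2 * Real.pi * Complex.I) = (k : ℚ) • (2 * Real.pi * Complex.I : ℂ) := by
        rw [Rat.smul_def]
        push_cast
        rfl
      rw [h1]
      exact Submodule.smul_mem _ _ hpi
    have h4 : Complex.log ((G f P g).leadingCoeff * R) - lc (ξ n) (D g) =
        Complex.log (G f P g).leadingCoeff + (k : ℂ) * (2 * Real.pi * Complex.I) + (Complex.log R - lc (ξ n) (D g)) := by
      rw [hk]
      ring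
    rw [h4]
    exact Submodule.add_mem _ (Submodule.add_mem _ h2 h3) h1

end Pool.Agent.X120.Orb
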