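import Mathlib

/-!
# Zeros of the iterates of a polynomial
-/

set_option autoImplicit false

open Polynomial

namespace Pool.Agent.X120.Orb

/-- the polynomials `f ∘ P ∘ ⋯ ∘ P` -/
noncomputable def G (f P : ℂ[X]) : ℕ → ℂ[X]
  | 0 => f
  | g + 1 => (G f P g).comp P

/-- a polynomial with one zero only -/
theorem one_root {Q : ℂ[X]} {x : ℂ} (h : ∀ y, Q.IsRoot y → y = x) : Q = C Q.leadingCoeff * (X - C x) ^ Q.natDegree := by
  have h1 := (IsAlgClosed.splits Q).eq_prod_roots
  have h2 : Q.roots = Multiset.replicate Q.natDegree x := by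
    refine Multiset.eq_replicate.2 ⟨?_, fun y hy => h y (isRoot_of_mem_roots hy)⟩
    exact (IsAlgClosed.splits Q).natDegree_eq_card_roots.symm
  rw [h2, Multiset.map_replicate, Multiset.prod_replicate] at h1
  exact h1

/-- polynomials with a finite backward invariant set -/
theorem backward {P : ℂ[X]} (hP : 2 ≤ P.natDegree) (U : Finset ℂ) (hU : ∀ x, P.eval x ∈ U → x ∈ U) :
    ∀ s ∈ U, ∀ s' ∈ U, s = s' := by
  classical
  have hsurj : ∀ s, ∃ x, P.eval x = s := by
    intro s
    have hd : (P - C s).degree ≠ 0 := by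
      intro h0
      have h1 : (P - C s).natDegree = 0 := natDegree_eq_of_degree_eq_some (by simpa using h0)
      rw [natDegree_sub_C] at h1
      omega
    obtain ⟨x, hx⟩ := IsAlgClosed.exists_root (P - C s) hd
    refine ⟨x, ?_⟩
    rw [IsRoot, eval_sub, eval_C, sub_eq_zero] at hx
    exact hx
  choose ψ hψ using hsurj
  -- `ψ` maps `U` to `U` injectively, hence bijectively, and `P` is injective on `U`
  have hψU : ∀ s ∈ U, ψ s ∈ U := fun s hs => hU _ (by rw [hψ]; exact hs)
  have hψinj : Set.InjOn ψ U := fun a _ b _ h => by rw [← hψ a, ← hψ b, h]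
  have hbij : ∀ x ∈ U, ∃ s ∈ U, ψ s = x := by
    have h1 : U.image ψ = U := by
      refine Finset.eq_of_subset_of_card_le (Finset.image_subset_iff.2 hψU) ?_
      rw [Finset.card_image_of_injOn hψinj]
    intro x hx
    rw [← h1] at hx
    obtain ⟨s, hs, hsx⟩ := Finset.mem_image.1 hx
    exact ⟨s, hs, hsx⟩
  have huniq : ∀ s ∈ U, ∀ y, P.eval y = s → y = ψ s := by
    intro s hs y hy
    obtain ⟨t, ht, rfl⟩ := hbij y (hU y (by rw [hy]; exact hs))
    rw [hψ] at hy
    rw [hy]
  have hform : ∀ s ∈ U, P - C s = C P.leadingCoeff * (X - C (ψ s)) ^ P.natDegree := by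
    intro s hs
    have h1 := one_root (Q := P - C s) (x := ψ s) fun y hy => huniq s hs y (by
      rw [IsRoot, eval_sub, eval_C, sub_eq_zero] at hy
      exact hy)
    have h2 : (P - C s).leadingCoeff = P.leadingCoeff := by
      refine leadingCoeff_sub_of_degree_lt ?_
      refine lt_of_le_of_lt degree_C_le ?_
      rw [← natDegree_pos_iff_degree_pos]
      omega
    rw [h2, natDegree_sub_C] at h1
    exact h1
  have hlc : P.leadingCoeff ≠ 0 := by
    rw [Ne, leadingCoeff_eq_zero]
    rintro rfl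
    simp at hP
  intro s hs s' hs'
  have h1 : derivative P = C P.leadingCoeff * (C (P.natDegree : ℂ) * (X - C (ψ s)) ^ (P.natDegree - 1)) := by
    have h2 := congrArg derivative (hform s hs)
    rw [derivative_sub, derivative_C, sub_zero, derivative_C_mul, derivative_X_sub_C_pow] at h2
    simpa using h2
  have h2 : derivative P = C P.leadingCoeff * (C (P.natDegree : ℂ) * (X - C (ψ s')) ^ (P.natDegree - 1)) := by
    have h2 := congrArg derivative (hform s' hs')
    rw [derivative_sub, derivative_C, sub_zero, derivative_C_mul, derivative_X_sub_C_pow] at h2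
    simpa using h2
  have h3 := congrArg (eval (ψ s)) (h1.symm.trans h2)
  simp only [eval_mul, eval_C, eval_pow, eval_sub, eval_X, sub_self] at h3
  rw [zero_pow (by omega), mul_zero, mul_zero] at h3
  have hd0 : (P.natDegree : ℂ) ≠ 0 := by exact_mod_cast (by omega : P.natDegree ≠ 0)
  have h4 : (ψ s - ψ s') ^ (P.natDegree - 1) = 0 := by
    rcases mul_eq_zero.1 h3.symm with h | h
    · exact absurd h hlc
    · rcases mul_eq_zero.1 h with h | h
      · exact absurd h hd0
      · exact h
  have h5 : ψ s = ψ s' := sub_eq_zero.1 (pow_eq_zero_iff (by omega) |>.1 h4)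
  rw [← hψ s, ← hψ s', h5]

/-- new zeros -/
theorem new_root {f P : ℂ[X]} (hf : 1 ≤ f.natDegree) (hP : 2 ≤ P.natDegree)
    (hexc : ¬ ∃ z, (∀ x, f.eval x = 0 ↔ x = z) ∧ ∀ x, P.eval x = z ↔ x = z) (g : ℕ) (hg : 1 ≤ g) :
    ∃ z, (G f P g).eval z = 0 ∧ ∀ g' < g, (G f P g').eval z ≠ 0 := by
  classical
  by_contra hcon
  push Not at hcon
  have hdeg : ∀ g, 1 ≤ (G f P g).natDegree := by
    intro g
    induction g with
    | zero => exact hf
    | succ g ih =>
      rw [G, natDegree_comp]
      nlinarith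
  have hne : ∀ g, G f P g ≠ 0 := fun g h => by
    have := hdeg g
    rw [h] at this
    simp at this
  set U : Finset ℂ := (Finset.range g).biUnion fun g' => (G f P g').roots.toFinset with hU
  have hmem : ∀ x, x ∈ U ↔ ∃ g' < g, (G f P g').eval x = 0 := by
    intro x
    rw [hU, Finset.mem_biUnion]
    constructor
    · rintro ⟨g', hg', hx⟩
      exact ⟨g', Finset.mem_range.1 hg', isRoot_of_mem_roots (Multiset.mem_toFinset.1 hx)⟩
    · rintro ⟨g', hg', hx⟩
      exact ⟨g', Finset.mem_range.2 hg', Multiset.mem_toFinset.2 ((mem_roots (hne g')).2 hx)⟩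
  have hback : ∀ x, P.eval x ∈ U → x ∈ U := by
    intro x hx
    obtain ⟨g', hg', h0⟩ := (hmem _).1 hx
    have h1 : (G f P (g' + 1)).eval x = 0 := by
      rw [G, eval_comp]
      exact h0
    by_cases h2 : g' + 1 < g
    · exact (hmem _).2 ⟨g' + 1, h2, h1⟩
    · have h3 : g' + 1 = g := by omega
      rw [h3] at h1
      obtain ⟨g'', hg'', h4⟩ := hcon x h1
      exact (hmem _).2 ⟨g'', hg'', h4⟩
  have huniq := backward hP U hback
  obtain ⟨z, hz⟩ : ∃ z, f.eval z = 0 := by
    have hd : f.degree ≠ 0 := by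
      intro h0
      have h1 : f.natDegree = 0 := natDegree_eq_of_degree_eq_some (by simpa using h0)
      omega
    exact IsAlgClosed.exists_root f hd
  have hzU : z ∈ U := (hmem z).2 ⟨0, by omega, hz⟩
  refine hexc ⟨z, fun x => ⟨fun hx => ?_, fun hx => hx ▸ hz⟩, fun x => ⟨fun hx => ?_, fun hx => ?_⟩⟩
  · exact huniq x ((hmem x).2 ⟨0, by omega, hx⟩) z hzU
  · exact huniq x (hback x (by rw [hx]; exact hzU)) z hzU
  · subst hx
    have hd : (P - C x).degree ≠ 0 := by
      intro h0
      have h1 : (P - C x).natDegree = 0 := natDegree_eq_of_degree_eq_some (by simpa using h0)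
      rw [natDegree_sub_C] at h1
      omega
    obtain ⟨y, hy⟩ := IsAlgClosed.exists_root (P - C x) hd
    rw [IsRoot, eval_sub, eval_C, sub_eq_zero] at hy
    have h1 : y = x := huniq y (hback y (by rw [hy]; exact hzU)) x hzU
    rw [h1] at hy
    exact hy

end Pool.Agent.X120.Orb
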