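import Pool.Agent.X120.Orb.Dyn
import Pool.Agent.X120.Rec.Full

/-!
# Growth and arithmetic of the orbits of a polynomial
-/

set_option autoImplicit false

open Polynomial Module

namespace Pool.Agent.X120.Orb

open Pool.Agent.Y916.Al Pool.Agent.X120.Rec

/-- growth of a polynomial -/
theorem growth (P : ℂ[X]) (hP : P ≠ 0) : ∃ c₁ R : ℝ, 0 < c₁ ∧ c₁ ≤ 1 ∧ 1 ≤ R ∧
    ∀ x : ℂ, R ≤ ‖x‖ → c₁ * ‖x‖ ^ P.natDegree ≤ ‖P.eval x‖ := by
  have hlc : P.leadingCoeff ≠ 0 := leadingCoeff_ne_zero.2 hP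
  have hlp : 0 < ‖P.leadingCoeff‖ := norm_pos_iff.2 hlc
  have hcont : ContinuousAt (fun y : ℂ => P.reverse.eval y) 0 := P.reverse.continuous.continuousAt
  have h0 : P.reverse.eval 0 = P.leadingCoeff := by
    rw [← coeff_zero_eq_eval_zero, coeff_zero_reverse]
  obtain ⟨δ, hδ, hδ'⟩ := Metric.continuousAt_iff.1 hcont (‖P.leadingCoeff‖ / 2) (by positivity)
  refine ⟨min 1 (‖P.leadingCoeff‖ / 2), max 1 (2 / δ), by positivity, min_le_left _ _, le_max_left _ _, fun x hx => ?_⟩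
  have hx1 : 1 ≤ ‖x‖ := (le_max_left _ _).trans hx
  have hx0 : x ≠ 0 := by
    rintro rfl
    rw [norm_zero] at hx1
    linarith
  have hx2 : 2 / δ ≤ ‖x‖ := (le_max_right _ _).trans hx
  have h1 : dist x⁻¹ 0 < δ := by
    rw [dist_zero_right, norm_inv]
    have h2 : 1 / δ < ‖x‖ := lt_of_lt_of_le (div_lt_div_of_pos_right (by norm_num) hδ) hx2
    exact inv_lt_of_inv_lt₀ hδ (by rwa [← one_div])
  have h2 := hδ' h1
  rw [h0, dist_eq_norm] at h2
  have h3 : ‖P.leadingCoeff‖ / 2 ≤ ‖P.reverse.eval x⁻¹‖ := by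
    have h4 := norm_sub_norm_le P.leadingCoeff (P.reverse.eval x⁻¹)
    rw [norm_sub_rev] at h4
    linarith
  rw [eval_reverse' P hx0, norm_mul, norm_pow, mul_comm]
  exact mul_le_mul_of_nonneg_left ((min_le_right _ _).trans h3) (by positivity)

/-- the iterates of large numbers are large -/
theorem exists_c (f P : ℂ[X]) (hf : f ≠ 0) (hP : 2 ≤ P.natDegree) : ∃ c : ℕ, ∀ g (x : ℂ), (c : ℝ) ≤ ‖x‖ →
    (G f P g).eval x ≠ 0 := by
  have hP0 : P ≠ 0 := by
    rintro rfl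
    simp at hP
  obtain ⟨c₁, R, hc0, hc1, hR, hgr⟩ := growth P hP0
  obtain ⟨Rf, hRf⟩ : ∃ Rf : ℝ, ∀ x, f.eval x = 0 → ‖x‖ < Rf := by
    classical
    refine ⟨∑ z ∈ f.roots.toFinset, ‖z‖ + 1, fun x hx => ?_⟩
    have h1 : x ∈ f.roots.toFinset := Multiset.mem_toFinset.2 ((mem_roots hf).2 hx)
    have h2 := Finset.single_le_sum (f := fun z : ℂ => ‖z‖) (fun _ _ => norm_nonneg _) h1
    linarith
  obtain ⟨c, hc⟩ := exists_nat_ge (max (max R (2 / c₁)) Rf)
  have hcR : R ≤ c := ((le_max_left _ _).trans (le_max_left _ _)).trans hc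
  have hcc : 2 / c₁ ≤ c := ((le_max_right _ _).trans (le_max_left _ _)).trans hc
  have hcf : Rf ≤ c := (le_max_right _ _).trans hc
  refine ⟨c, fun g => ?_⟩
  induction g with
  | zero =>
    intro x hx h0
    have := hRf x h0
    linarith
  | succ g ih =>
    intro x hx
    rw [G, eval_comp]
    refine ih _ (hx.trans ?_)
    have h1 := hgr x (hcR.trans hx)
    have hx1 : 1 ≤ ‖x‖ := hR.trans (hcR.trans hx)
    have h2 : ‖x‖ ^ 2 ≤ ‖x‖ ^ P.natDegree := pow_le_pow_right₀ hx1 hP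
    have h3 : 2 ≤ c₁ * ‖x‖ := by
      have h4 := hcc.trans hx
      rw [div_le_iff₀ hc0] at h4
      linarith
    calc ‖x‖ ≤ 2 * ‖x‖ := by linarith
      _ ≤ (c₁ * ‖x‖) * ‖x‖ := by gcongr
      _ = c₁ * ‖x‖ ^ 2 := by ring
      _ ≤ c₁ * ‖x‖ ^ P.natDegree := by gcongr
      _ ≤ _ := h1

/-- unbounded orbits grow doubly exponentially -/
theorem lower (P : ℂ[X]) (hP : 2 ≤ P.natDegree) (a : ℕ → ℂ) (ha : ∀ n, a (n + 1) = P.eval (a n))
    (hub : ∀ R : ℝ, ∃ n, R < ‖a n‖) : ∃ n₁ : ℕ, ∀ j, (4 : ℝ) ^ P.natDegree ^ j ≤ ‖a (n₁ + j)‖ := by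
  have hP0 : P ≠ 0 := by
    rintro rfl
    simp at hP
  obtain ⟨c₁, R, hc0, hc1, hR, hgr⟩ := growth P hP0
  obtain ⟨n₁, hn₁⟩ := hub (4 * R / c₁)
  have key : ∀ j, (4 * R) ^ P.natDegree ^ j ≤ c₁ * ‖a (n₁ + j)‖ := by
    intro j
    induction j with
    | zero =>
      rw [pow_zero, pow_one, add_zero]
      rw [div_lt_iff₀ hc0] at hn₁
      linarith
    | succ j ih =>
      set q := P.natDegree with hq
      have h4R : 1 ≤ 4 * R := by linarith
      have h1 : 4 * R ≤ (4 * R) ^ q ^ j := le_self_pow₀ h4R (pow_ne_zero _ (by omega))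
      have h2 : R ≤ ‖a (n₁ + j)‖ := by
        have h3 : c₁ * ‖a (n₁ + j)‖ ≤ ‖a (n₁ + j)‖ := mul_le_of_le_one_left (norm_nonneg _) hc1
        linarith
      have h3 := hgr _ h2
      rw [← ha] at h3
      have h4 : c₁ ^ q ≤ c₁ ^ 2 := pow_le_pow_of_le_one hc0.le hc1 hP
      calc (4 * R) ^ q ^ (j + 1) = ((4 * R) ^ q ^ j) ^ q := by rw [← pow_mul, pow_succ]
        _ ≤ (c₁ * ‖a (n₁ + j)‖) ^ q := by gcongr
        _ = c₁ ^ q * ‖a (n₁ + j)‖ ^ q := mul_pow _ _ _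
        _ ≤ c₁ ^ 2 * ‖a (n₁ + j)‖ ^ q := by gcongr
        _ = c₁ * (c₁ * ‖a (n₁ + j)‖ ^ q) := by ring
        _ ≤ c₁ * ‖a (n₁ + j + 1)‖ := by gcongr
  refine ⟨n₁, fun j => ?_⟩
  have h1 := key j
  have h2 : (4 : ℝ) ^ P.natDegree ^ j ≤ (4 * R) ^ P.natDegree ^ j := by
    gcongr
    linarith
  have h3 : c₁ * ‖a (n₁ + j)‖ ≤ ‖a (n₁ + j)‖ := mul_le_of_le_one_left (norm_nonneg _) hc1
  linarith

/-- numerators and denominators -/
theorem upper (K : IntermediateField ℚ ℂ) [FiniteDimensional ℚ K] (q : ℕ) (hq : 2 ≤ q) (p : ℕ → K) (a : ℕ → K)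
    (ha : ∀ n, a (n + 1) = ∑ i ∈ Finset.range (q + 1), p i * a n ^ i) (c : ℕ) : ∃ Y : ℝ, 1 ≤ Y ∧ ∀ n,
      Pt K (a n - c) (Y ^ q ^ n) := by
  classical
  obtain ⟨b, hb, hbi⟩ := exists_den K (insert (a 0) ((Finset.range (q + 1)).image p))
  obtain ⟨B, hB, hBσ⟩ := exists_bd K (insert (b : K) (insert ((b : K) * a 0)
    ((Finset.range (q + 1)).image fun i => (b : K) * p i)))
  have hbK : (b : K) ≠ 0 := by exact_mod_cast (by omega : b ≠ 0)
  have hbint : IsIntegral ℤ (b : K) := by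
    have h1 : (b : K) = algebraMap ℤ K b := by
      rw [eq_intCast]
      push_cast
      rfl
    rw [h1]
    exact isIntegral_algebraMap
  have hpi : ∀ i ∈ Finset.range (q + 1), IsIntegral ℤ ((b : K) * p i) := fun i hi =>
    hbi _ (Finset.mem_insert_of_mem (Finset.mem_image_of_mem p hi))
  have hpB : ∀ i ∈ Finset.range (q + 1), ∀ σ : K →+* ℂ, ‖σ ((b : K) * p i)‖ ≤ B := fun i hi =>
    hBσ _ (Finset.mem_insert_of_mem (Finset.mem_insert_of_mem (Finset.mem_image_of_mem (fun i => (b : K) * p i) hi)))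
  have hB1 : (1 : ℝ) ≤ B := by exact_mod_cast hB
  set C : ℝ := (q + 1) * B with hC
  have hq0 : (0 : ℝ) ≤ q := Nat.cast_nonneg q
  have hC1 : 1 ≤ C := by
    rw [hC]
    nlinarith
  have hC0 : 0 < C := by linarith
  set Y : ℝ := C * B with hY
  have hY1 : 1 ≤ Y := by
    rw [hY]
    nlinarith
  have key : ∀ n, ∃ u v : K, IsIntegral ℤ u ∧ IsIntegral ℤ v ∧ v ≠ 0 ∧ a n = u / v ∧ ∀ σ : K →+* ℂ,
      ‖σ u‖ ≤ Y ^ q ^ n / C ∧ ‖σ v‖ ≤ Y ^ q ^ n / C := by
    intro n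
    induction n with
    | zero =>
      refine ⟨b * a 0, b, hbi _ (Finset.mem_insert_self _ _), hbint, hbK, ?_, fun σ => ?_⟩
      · rw [mul_div_cancel_left₀ _ hbK]
      · rw [pow_zero, pow_one, hY, mul_div_cancel_left₀ _ hC0.ne']
        exact ⟨hBσ _ (Finset.mem_insert_of_mem (Finset.mem_insert_self _ _)) σ, hBσ _ (Finset.mem_insert_self _ _) σ⟩
    | succ n ih =>
      obtain ⟨u, v, hu, hv, hv0, hauv, hσ⟩ := ih
      set X := Y ^ q ^ n / C with hX
      have hX0 : 0 ≤ X := by positivity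
      have hXstep : (q + 1) * B * X ^ q ≤ Y ^ q ^ (n + 1) / C := by
        rw [hX, div_pow, ← pow_mul, ← pow_succ, ← hC, le_div_iff₀ hC0]
        have h1 : C ^ 2 ≤ C ^ q := pow_le_pow_right₀ hC1 hq
        have h2 : 0 < C ^ q := by positivity
        have h3 : C * (Y ^ q ^ (n + 1) / C ^ q) * C = Y ^ q ^ (n + 1) * (C ^ 2 / C ^ q) := by ring
        rw [h3]
        have h4 : C ^ 2 / C ^ q ≤ 1 := (div_le_one h2).2 h1
        have h5 : 0 ≤ Y ^ q ^ (n + 1) := by positivity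
        nlinarith
      refine ⟨∑ i ∈ Finset.range (q + 1), (b * p i) * u ^ i * v ^ (q - i), b * v ^ q, ?_, ?_, ?_, ?_, fun σ => ⟨?_, ?_⟩⟩
      · exact IsIntegral.sum _ fun i hi => ((hpi i hi).mul (hu.pow i)).mul (hv.pow _)
      · exact hbint.mul (hv.pow q)
      · exact mul_ne_zero hbK (pow_ne_zero _ hv0)
      · rw [ha, hauv, Finset.sum_div]
        refine Finset.sum_congr rfl fun i hi => ?_
        have hi' : i ≤ q := Nat.lt_succ_iff.1 (Finset.mem_range.1 hi)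
        obtain ⟨j, rfl⟩ : ∃ j, q = i + j := ⟨q - i, by omega⟩
        rw [Nat.add_sub_cancel_left, pow_add]
        field_simp
        rw [mul_assoc, ← mul_pow, div_mul_cancel₀ _ hv0]
      · rw [map_sum]
        refine (norm_sum_le _ _).trans ?_
        have h1 : ∀ i ∈ Finset.range (q + 1), ‖σ ((b * p i) * u ^ i * v ^ (q - i))‖ ≤ B * X ^ q := by
          intro i hi
          have hi' : i ≤ q := Nat.lt_succ_iff.1 (Finset.mem_range.1 hi)
          rw [map_mul, map_mul, norm_mul, norm_mul, map_pow, map_pow, norm_pow, norm_pow]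
          calc ‖σ (b * p i)‖ * ‖σ u‖ ^ i * ‖σ v‖ ^ (q - i) ≤ B * X ^ i * X ^ (q - i) := by
                gcongr
                · exact hpB i hi σ
                · exact (hσ σ).1
                · exact (hσ σ).2
            _ = B * X ^ q := by rw [mul_assoc, ← pow_add]; congr 2; omega
        refine (Finset.sum_le_card_nsmul _ _ _ h1).trans ?_
        rw [Finset.card_range, nsmul_eq_mul]
        push_cast
        calc ((q : ℝ) + 1) * (B * X ^ q) = (q + 1) * B * X ^ q := by ring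
          _ ≤ _ := hXstep
      · rw [map_mul, map_pow, norm_mul, norm_pow]
        refine le_trans ?_ hXstep
        calc ‖σ b‖ * ‖σ v‖ ^ q ≤ B * X ^ q := by
              gcongr
              · exact hBσ _ (Finset.mem_insert_self _ _) σ
              · exact (hσ σ).2
          _ ≤ (q + 1) * B * X ^ q := by
              have h1 : (0 : ℝ) ≤ B * X ^ q := by positivity
              nlinarith
  refine ⟨(1 + c) * Y, ?_, fun n => ?_⟩
  · have : (0 : ℝ) ≤ c := Nat.cast_nonneg c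
    nlinarith
  obtain ⟨u, v, hu, hv, hv0, hauv, hσ⟩ := key n
  have hcint : IsIntegral ℤ (c : K) := by
    have h1 : (c : K) = algebraMap ℤ K c := by
      rw [eq_intCast]
      push_cast
      rfl
    rw [h1]
    exact isIntegral_algebraMap
  have hc0 : (0 : ℝ) ≤ c := Nat.cast_nonneg c
  have hqn : q ^ n ≠ 0 := pow_ne_zero _ (by omega)
  have hbd : (1 + c) * (Y ^ q ^ n / C) ≤ ((1 + c) * Y) ^ q ^ n := by
    rw [mul_pow (1 + (c : ℝ)) Y]
    have h1 : (1 + (c : ℝ)) ≤ (1 + (c : ℝ)) ^ q ^ n := le_self_pow₀ (by linarith) hqn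
    have h2 : Y ^ q ^ n / C ≤ Y ^ q ^ n := div_le_self (by positivity) hC1
    exact mul_le_mul h1 h2 (by positivity) (by positivity)
  refine ⟨u - c * v, v, hu.sub (hcint.mul hv), hv, hv0, ?_, fun σ => ⟨?_, ?_⟩⟩
  · rw [hauv]
    field_simp
  · rw [map_sub, map_mul, map_natCast]
    refine (norm_sub_le _ _).trans ?_
    rw [norm_mul, Complex.norm_natCast]
    refine le_trans ?_ hbd
    have h1 := (hσ σ).1
    have h2 := (hσ σ).2
    nlinarith
  · refine (hσ σ).2.trans (le_trans ?_ hbd)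
    have h1 : 0 ≤ Y ^ q ^ n / C := by positivity
    nlinarith

end Pool.Agent.X120.Orb
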