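import Pool.Agent.X120.Orb.Grow
import Pool.Agent.X120.Fac.Main

/-!
# Orbits of polynomials: the exceptional indices have density zero
-/

set_option autoImplicit false

open Polynomial Module Filter

namespace Pool.Agent.X120.Orb

open Pool.Agent.Y916.Om Pool.Agent.Y916.Ari Pool.Agent.Y916.Al Pool.Agent.X120.Rec Pool.Agent.X120.Soft
open Pool.Agent.X120.Fac

theorem G_ne (f P : ℂ[X]) (hf : f ≠ 0) (hP : 1 ≤ P.natDegree) (g : ℕ) : G f P g ≠ 0 := by
  induction g with
  | zero => exact hf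
  | succ g ih =>
    rw [G]
    intro h
    rcases comp_eq_zero_iff.1 h with h | ⟨-, h⟩
    · exact ih h
    · rw [h, natDegree_C] at hP
      omega

theorem G_eval (f P : ℂ[X]) (a : ℕ → ℂ) (ha : ∀ n, a (n + 1) = P.eval (a n)) (g : ℕ) :
    ∀ n, (G f P g).eval (a n) = f.eval (a (n + g)) := by
  induction g with
  | zero => intro n; rfl
  | succ g ih =>
    intro n
    rw [G, eval_comp, ← ha, ih]
    congr 2
    omega

theorem G_coeff (f P : ℂ[X]) (hf : ∀ i, IsAlgebraic ℚ (f.coeff i)) (hP : ∀ i, IsAlgebraic ℚ (P.coeff i)) (g : ℕ) :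
    ∀ i, IsAlgebraic ℚ ((G f P g).coeff i) := by
  set K : Subalgebra ℚ ℂ := (algebraicClosure ℚ ℂ).toSubalgebra with hK
  have hmem : ∀ z : ℂ, z ∈ K ↔ IsAlgebraic ℚ z := fun z => mem_algebraicClosure_iff
  have key : ∃ p : K[X], p.map (algebraMap K ℂ) = G f P g := by
    have hl : ∀ p : ℂ[X], (∀ i, IsAlgebraic ℚ (p.coeff i)) → ∃ p' : K[X], p'.map (algebraMap K ℂ) = p := by
      intro p hp
      have h1 : ∀ i, p.coeff i ∈ Set.range (algebraMap K ℂ) := fun i =>
        ⟨(⟨p.coeff i, (hmem _).2 (hp i)⟩ : K), rfl⟩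
      obtain ⟨p', hp'⟩ := (mem_lifts p).1 ((lifts_iff_coeff_lifts p).2 h1)
      exact ⟨p', hp'⟩
    obtain ⟨P', hP'⟩ := hl P hP
    induction g with
    | zero => exact hl f hf
    | succ g ih =>
      obtain ⟨p, hp⟩ := ih
      exact ⟨p.comp P', by rw [map_comp, hp, hP', G]⟩
  obtain ⟨p, hp⟩ := key
  intro i
  rw [← hp, coeff_map]
  exact (hmem _).1 (p.coeff i).2

/-- the logarithm of a product over the zeros -/
theorem log_prod (W : Submodule ℚ ℂ) (hpi : (2 * Real.pi * Complex.I : ℂ) ∈ W) (ξ : ℂ) (hξ : ξ ≠ 0)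
    (hlξ : Complex.log ξ ∈ W) (m : Multiset ℂ) (hm : ∀ β ∈ m, ξ + β ≠ 0) (v : ℂ) (hv : v ≠ 0)
    (hprod : v = (m.map fun β => ξ + β).prod) :
    Complex.log v - lc ξ (m.map fun β => Finsupp.single β (1 : ℚ)).sum ∈ W := by
  classical
  induction m using Multiset.induction_on generalizing v with
  | empty =>
    rw [Multiset.map_zero, Multiset.prod_zero] at hprod
    rw [Multiset.map_zero, Multiset.sum_zero, map_zero, hprod, Complex.log_one, sub_zero]
    exact Submodule.zero_mem _
  | cons β m ih =>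
    rw [Multiset.map_cons, Multiset.prod_cons] at hprod
    rw [Multiset.map_cons, Multiset.sum_cons, map_add]
    have hβ : ξ + β ≠ 0 := hm β (Multiset.mem_cons_self _ _)
    have hv' : (m.map fun β => ξ + β).prod ≠ 0 := by
      intro h0
      rw [h0, mul_zero] at hprod
      exact hv hprod
    have h1 := ih (fun β' hβ' => hm β' (Multiset.mem_cons_of_mem hβ')) _ hv' rfl
    obtain ⟨k, hk⟩ := log_add hξ hβ
    obtain ⟨k', hk'⟩ : ∃ k' : ℤ, Complex.log v = Complex.log (ξ + β) + Complex.log (m.map fun β => ξ + β).prod +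
        k' * (2 * Real.pi * Complex.I) := by
      refine Complex.exp_eq_exp_iff_exists_int.1 ?_
      rw [Complex.exp_add, Complex.exp_log hv, Complex.exp_log hβ, Complex.exp_log hv', hprod]
    have h2 : lc ξ (Finsupp.single β (1 : ℚ)) = Complex.log (1 + β / ξ) := by
      rw [lc, Finsupp.linearCombination_single, one_smul]
    have hint : ∀ (b : ℤ), (b : ℂ) * (2 * Real.pi * Complex.I) ∈ W := by
      intro b
      have h1 : (b : ℂ) * (2 * Real.pi * Complex.I) = (b : ℚ) • (2 * Real.pi * Complex.I : ℂ) := by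
        rw [Rat.smul_def]
        push_cast
        rfl
      rw [h1]
      exact Submodule.smul_mem _ _ hpi
    have h3 : Complex.log v - (lc ξ (Finsupp.single β 1) + lc ξ (m.map fun β => Finsupp.single β (1 : ℚ)).sum) =
        Complex.log ξ + (k : ℂ) * (2 * Real.pi * Complex.I) + (k' : ℂ) * (2 * Real.pi * Complex.I) +
        (Complex.log (m.map fun β => ξ + β).prod - lc ξ (m.map fun β => Finsupp.single β (1 : ℚ)).sum) := by
      rw [hk', hk, h2]
      ring
    rw [h3]
    exact Submodule.add_mem _ (Submodule.add_mem _ (Submodule.add_mem _ hlξ (hint k)) (hint k')) h1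

/-- the leading coefficients -/
theorem log_lead (f P : ℂ[X]) (hf : f ≠ 0) (hP : 1 ≤ P.natDegree) (W : Submodule ℚ ℂ)
    (hpi : (2 * Real.pi * Complex.I : ℂ) ∈ W) (h1 : Complex.log f.leadingCoeff ∈ W)
    (h2 : Complex.log P.leadingCoeff ∈ W) (g : ℕ) : Complex.log (G f P g).leadingCoeff ∈ W := by
  have hP0 : P.leadingCoeff ≠ 0 := by
    rw [Ne, leadingCoeff_eq_zero]
    rintro rfl
    simp at hP
  have hint : ∀ (b : ℤ) (v : ℂ), v ∈ W → (b : ℂ) * v ∈ W := by
    intro b v hv
    have h1 : (b : ℂ) * v = (b : ℚ) • v := by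
      rw [Rat.smul_def]
      push_cast
      rfl
    rw [h1]
    exact Submodule.smul_mem _ _ hv
  induction g with
  | zero => exact h1
  | succ g ih =>
    have h0 : (G f P g).leadingCoeff ≠ 0 := leadingCoeff_ne_zero.2 (G_ne f P hf hP g)
    rw [G, leadingCoeff_comp (by omega)]
    obtain ⟨k, hk⟩ : ∃ k : ℤ, Complex.log ((G f P g).leadingCoeff * P.leadingCoeff ^ (G f P g).natDegree) =
        Complex.log (G f P g).leadingCoeff + ((G f P g).natDegree : ℤ) * Complex.log P.leadingCoeff +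
        k * (2 * Real.pi * Complex.I) := by
      refine Complex.exp_eq_exp_iff_exists_int.1 ?_
      rw [Complex.exp_add, Complex.exp_log h0, Complex.exp_int_mul, Complex.exp_log hP0, zpow_natCast,
        Complex.exp_log (mul_ne_zero h0 (pow_ne_zero _ hP0))]
    rw [hk]
    exact Submodule.add_mem _ (Submodule.add_mem _ ih (hint _ _ h2)) (hint _ _ hpi)

end Pool.Agent.X120.Orb
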